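import Pool.Agent.WAP.StmtsL

set_option autoImplicit false

namespace Pool.Agent.WAP.H16

open Classical Polynomial WeierstrassCurve.Affine
open Pool.Agent.WAP

section basic
variable {F : Type} [Field F] [Algebra GaussianInt F] {d : F}

lemma sm_add_left (a b : GaussianInt) (P : Pt d) : sm (a + b) P = sm a P + sm b P :=
  add_gsm _ a b P

lemma sm_mul (a b : GaussianInt) (P : Pt d) : sm (a * b) P = sm a (sm b P) :=
  mul_gsm _ a b P

lemma sm_zero_left (P : Pt d) : sm (0 : GaussianInt) P = 0 := by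
  rw [sm_def]
  simp

lemma sm_one (P : Pt d) : sm (1 : GaussianInt) P = P := by
  rw [sm_def]
  simp

lemma sm_neg_left (a : GaussianInt) (P : Pt d) : sm (-a) P = - sm a P := by
  have h : sm (-a) P + sm a P = 0 := by
    rw [← sm_add_left, neg_add_cancel, sm_zero_left]
  exact eq_neg_of_add_eq_zero_left h

lemma sm_I (P : Pt d) : sm (⟨0, 1⟩ : GaussianInt) P = iPt P := by
  rw [sm_def]
  simp

lemma nm_cast (a : GaussianInt) : (nm a : ℤ) = a.re * a.re + a.im * a.im := by
  unfold nm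
  rw [Int.natAbs_of_nonneg (GaussianInt.norm_nonneg a), Zsqrtd.norm_def]
  ring

lemma nm_pos (a : GaussianInt) (h : a ≠ 0) : 1 ≤ nm a := by
  have h1 := nm_cast a
  have h2 : nm a ≠ 0 := by
    intro h3
    rw [h3, Nat.cast_zero] at h1
    have h4 : a.re = 0 := mul_self_eq_zero.1
      (le_antisymm (by linarith [mul_self_nonneg a.im]) (mul_self_nonneg _))
    have h5 : a.im = 0 := mul_self_eq_zero.1
      (le_antisymm (by linarith [mul_self_nonneg a.re]) (mul_self_nonneg _))
    exact h (Zsqrtd.ext h4 h5)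
  omega

end basic

section main
variable {F : Type} [Field F] [IsAlgClosed F] [Algebra GaussianInt F] {d : F}
  {L : Type} [Field L] [Algebra GaussianInt L] {ι : F →ₐ[GaussianInt] L} {X Y : L}
  {h : (W (ι d)).Nonsingular X Y}

/-- the property to be proved -/
def DD (ι : F →ₐ[GaussianInt] L) (X Y : L) (h : (W (ι d)).Nonsingular X Y) (a : GaussianInt) :
    Prop :=
  ∃ (A B : F[X]) (X' Y' : L) (h' : (W (ι d)).Nonsingular X' Y'),
      sm a (Point.some X Y h : Pt (ι d)) = .some X' Y' h' ∧ B ≠ 0 ∧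
      A.natDegree ≤ 2 * nm a - 1 ∧ B.natDegree ≤ 2 * nm a - 1 ∧
      X' * B.eval₂ (ι : F →+* L) X = A.eval₂ (ι : F →+* L) X

omit [IsAlgClosed F] in
lemma DD_one : DD ι X Y h 1 := by
  refine ⟨Polynomial.X, 1, X, Y, h, sm_one _, one_ne_zero, ?_, ?_, ?_⟩
  · have : nm (1 : GaussianInt) = 1 := by decide
    rw [this]
    exact natDegree_X_le
  · rw [natDegree_one]
    omega
  · rw [eval₂_one, eval₂_X, mul_one]

omit [IsAlgClosed F] in
lemma DD_neg (a : GaussianInt) (ha : DD ι X Y h a) : DD ι X Y h (-a) := by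
  obtain ⟨A, B, X', Y', h', h1, h2, h3, h4, h5⟩ := ha
  have hn : nm (-a) = nm a := by
    have e1 := nm_cast a
    have e2 := nm_cast (-a)
    simp only [Zsqrtd.re_neg, Zsqrtd.im_neg, neg_mul_neg] at e2
    omega
  refine ⟨A, B, X', (W (ι d)).negY X' Y', (nonsingular_neg _ _).2 h', ?_, h2, ?_, ?_, h5⟩
  · rw [sm_neg_left, h1, Point.neg_some]
  · rw [hn]; exact h3
  · rw [hn]; exact h4

omit [IsAlgClosed F] in
lemma DD_I (a : GaussianInt) (ha : DD ι X Y h a) : DD ι X Y h (⟨0, 1⟩ * a) := by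
  obtain ⟨A, B, X', Y', h', h1, h2, h3, h4, h5⟩ := ha
  have hn : nm (⟨0, 1⟩ * a) = nm a := by
    have e1 := nm_cast a
    have e2 := nm_cast (⟨0, 1⟩ * a)
    simp only [Zsqrtd.re_mul, Zsqrtd.im_mul] at e2
    have e3 : (nm (⟨0, 1⟩ * a) : ℤ) = nm a := by
      rw [e1, e2]; ring
    exact_mod_cast e3
  have e := sm_mul (⟨0, 1⟩ : GaussianInt) a (Point.some X Y h : Pt (ι d))
  rw [sm_I, h1] at e
  refine ⟨-A, B, -X', _, _, e, h2, ?_, ?_, ?_⟩
  · rw [hn, natDegree_neg]; exact h3
  · rw [hn]; exact h4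
  · rw [eval₂_neg, ← h5, neg_mul]

omit [IsAlgClosed F] in
lemma two_L (ι : F →ₐ[GaussianInt] L) (h2 : (2 : F) ≠ 0) : (2 : L) ≠ 0 := by
  intro e
  apply h2
  apply ι.injective
  rw [map_ofNat, map_zero]
  exact e

omit [IsAlgClosed F] in
lemma d_L (hd : d ≠ 0) : ι d ≠ 0 := by
  intro e
  apply hd
  apply ι.injective
  rw [map_zero]
  exact e

omit [IsAlgClosed F] in
lemma ii_L : ι (ii F) = ii L := by
  show ι (algebraMap GaussianInt F ⟨0, 1⟩) = algebraMap GaussianInt L ⟨0, 1⟩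
  exact ι.commutes _

omit [IsAlgClosed F] in
lemma ii_ne : ii F ≠ 0 := by
  intro e
  have := ii_sq (F := F)
  rw [e] at this
  norm_num at this

lemma DD_lam (h2 : (2 : F) ≠ 0) (hd : d ≠ 0) (hG : Gen F d L ι X Y h) (hLmf : LmfStmt)
    (hNco : NcoStmt) (b : GaussianInt) (hb : b ≠ 0) (hDb : DD ι X Y h b) :
    DD ι X Y h (lam * b) := by
  obtain ⟨A, B, X', Y', h', h1, hB, h3, h4, h5⟩ := hDb
  have hev := hG.tr
  have hn : nm (lam * b) = 2 * nm b := by
    have e1 := nm_cast b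
    have e2 := nm_cast (lam * b)
    simp only [Zsqrtd.re_mul, Zsqrtd.im_mul, lam] at e2
    have e3 : (nm (lam * b) : ℤ) = 2 * nm b := by
      rw [e1]
      unfold lam
      rw [e2]; ring
    exact_mod_cast e3
  have hnb := nm_pos b hb
  have hX' : X' ≠ 0 := by
    intro e0
    have hY0 : Y' = 0 := by
      have := (W_nonsingular (ι d) X' Y' (two_L ι h2) (d_L hd)).1 h'
      rw [e0] at this
      have h6 : Y' ^ 2 = 0 := by rw [this]; ring
      exact pow_eq_zero_iff (two_ne_zero) |>.1 h6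
    have hns : (W d).Nonsingular (0 : F) 0 := by
      rw [W_nonsingular d 0 0 h2 hd]
      ring
    have hns' : (W (ι d)).Nonsingular (ι 0) (ι 0) := by
      rw [W_nonsingular _ _ _ (two_L ι h2) (d_L hd), map_zero]
      ring
    have hQ : BcR ι (Point.some 0 0 hns : Pt d) (Point.some (ι 0) (ι 0) hns' : Pt (ι d)) :=
      Or.inr ⟨0, 0, hns, hns', rfl, rfl⟩
    apply hNco F d h2 hd L ι X Y h hG b hb _ _ hQ
    rw [h1]
    congr 1
    · rw [e0, map_zero]
    · rw [hY0, map_zero]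
  obtain ⟨Y2, h6, h7⟩ := (hLmf L (ι d) (two_L ι h2) (d_L hd) X' Y' h').2 hX'
  have hBX : B.eval₂ (ι : F →+* L) X ≠ 0 := hev B hB
  have hA : A ≠ 0 := by
    intro e
    rw [e, eval₂_zero] at h5
    exact (mul_ne_zero hX' hBX) h5
  have h2i : (2 * ii F : F) ≠ 0 := mul_ne_zero h2 ii_ne
  refine ⟨A ^ 2 - C (d ^ 2) * B ^ 2, C (2 * ii F) * (A * B), _, Y2, h6, ?_, ?_, ?_, ?_, ?_⟩
  · rw [sm_mul, h1, h7]
  · exact mul_ne_zero (C_ne_zero.2 h2i) (mul_ne_zero hA hB)
  · rw [hn]
    refine (natDegree_sub_le _ _).trans (max_le ?_ ?_)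
    · refine (natDegree_pow_le).trans ?_
      omega
    · refine (natDegree_C_mul_le _ _).trans ((natDegree_pow_le).trans ?_)
      omega
  · rw [hn]
    refine (natDegree_C_mul_le _ _).trans ((natDegree_mul_le).trans ?_)
    omega
  · rw [eval₂_mul, eval₂_C, eval₂_mul, eval₂_sub, eval₂_mul, eval₂_pow, eval₂_pow, eval₂_C, ← h5]
    show (X' ^ 2 - ι d ^ 2) / (2 * ii L * X') * (ι (2 * ii F) * (X' * _ * _)) =
      (X' * _) ^ 2 - ι (d ^ 2) * _ ^ 2
    rw [map_mul, map_ofNat, ii_L, map_pow]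
    have e2 : (2 : L) ≠ 0 := two_L ι h2
    have e3 : ii L ≠ 0 := ii_ne
    field_simp

lemma DD_odd (h2 : (2 : F) ≠ 0) (hd : d ≠ 0) (hG : Gen F d L ι X Y h) (hPrf : PrfStmt)
    (hNco : NcoStmt) (a b c : GaussianInt) (ha : a ≠ 0) (hb : b ≠ 0) (hc : c ≠ 0)
    (hbc : b + c = a) (hbc' : b - c = 1) (hn : 2 * (nm b + nm c) = nm a + 1)
    (hDb : DD ι X Y h b) (hDc : DD ι X Y h c) : DD ι X Y h a := by
  obtain ⟨A1, B1, x1, y1, k1, e1, hB1, f1, g1, r1⟩ := hDb
  obtain ⟨A2, B2, x2, y2, k2, e2, hB2, f2, g2, r2⟩ := hDc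
  have hev := hG.tr
  have h20 : (2 : L) ≠ 0 := two_L ι h2
  have hnb := nm_pos b hb
  have hnc := nm_pos c hc
  have hne : ∀ a : GaussianInt, a ≠ 0 → sm a (Point.some X Y h : Pt (ι d)) ≠ 0 := fun a ha =>
    hNco F d h2 hd L ι X Y h hG a ha 0 0 (Or.inl ⟨rfl, rfl⟩)
  have hsum : sm b (Point.some X Y h : Pt (ι d)) + sm c (Point.some X Y h : Pt (ι d)) =
      sm a (Point.some X Y h : Pt (ι d)) := by
    rw [← sm_add_left, hbc]
  have hdif : sm b (Point.some X Y h : Pt (ι d)) - sm c (Point.some X Y h : Pt (ι d)) =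
      Point.some X Y h := by
    rw [sub_eq_add_neg, ← sm_neg_left, ← sm_add_left, ← sub_eq_add_neg, hbc', sm_one]
  have hx : x1 ≠ x2 := by
    intro hx
    subst hx
    have q1 := (W_nonsingular _ _ _ h20 (d_L hd)).1 k1
    have q2 := (W_nonsingular _ _ _ h20 (d_L hd)).1 k2
    have q3 : (y1 - y2) * (y1 + y2) = 0 := by linear_combination q1 - q2
    rcases mul_eq_zero.1 q3 with q | q
    · have : y1 = y2 := sub_eq_zero.1 q
      subst this
      rw [e1, e2, sub_self] at hdif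
      exact Point.some_ne_zero h hdif.symm
    · have q4 : y1 = -y2 := eq_neg_of_add_eq_zero_left q
      apply hne a ha
      rw [← hsum, e1, e2]
      exact Point.add_of_Y_eq rfl (by rw [W_negY]; exact q4)
  obtain ⟨x3, y3, k3, e3⟩ : ∃ x3 y3 k3, sm a (Point.some X Y h : Pt (ι d)) =
      Point.some x3 y3 k3 := by
    rcases hP : sm a (Point.some X Y h : Pt (ι d)) with _ | ⟨x3, y3, k3⟩
    · exact absurd hP (hne a ha)
    · exact ⟨x3, y3, k3, rfl⟩
  rw [e1, e2] at hsum hdif
  have hp := hPrf L (ι d) h20 (d_L hd) x1 y1 x2 y2 x3 y3 X Y k1 k2 k3 h hx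
    (hsum.trans e3) hdif
  have hX : X ≠ 0 := by
    have := hev Polynomial.X X_ne_zero
    rwa [eval₂_X] at this
  have hb1 : B1.eval₂ (ι : F →+* L) X ≠ 0 := hev B1 hB1
  have hb2 : B2.eval₂ (ι : F →+* L) X ≠ 0 := hev B2 hB2
  have hBev : (Polynomial.X * (A1 * B2 - A2 * B1) ^ 2).eval₂ (ι : F →+* L) X =
      X * ((x1 - x2) * (B1.eval₂ (ι : F →+* L) X * B2.eval₂ (ι : F →+* L) X)) ^ 2 := by
    rw [eval₂_mul, eval₂_X, eval₂_pow, eval₂_sub, eval₂_mul, eval₂_mul, ← r1, ← r2]
    ring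
  have hAev : ((A1 * A2 + C (d ^ 2) * (B1 * B2)) ^ 2).eval₂ (ι : F →+* L) X =
      ((x1 * x2 + ι d ^ 2) * (B1.eval₂ (ι : F →+* L) X * B2.eval₂ (ι : F →+* L) X)) ^ 2 := by
    rw [eval₂_pow, eval₂_add, eval₂_mul, eval₂_mul, eval₂_mul, eval₂_C, ← r1, ← r2]
    have : (ι : F →+* L) (d ^ 2) = ι d ^ 2 := map_pow ι d 2
    rw [this]
    ring
  refine ⟨(A1 * A2 + C (d ^ 2) * (B1 * B2)) ^ 2, Polynomial.X * (A1 * B2 - A2 * B1) ^ 2,
    x3, y3, k3, e3, ?_, ?_, ?_, ?_⟩
  · intro e0
    rw [e0, eval₂_zero] at hBev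
    exact (mul_ne_zero hX (pow_ne_zero 2 (mul_ne_zero (sub_ne_zero.2 hx)
      (mul_ne_zero hb1 hb2)))) hBev.symm
  · refine (natDegree_pow_le).trans ?_
    have t1 : (A1 * A2 + C (d ^ 2) * (B1 * B2)).natDegree ≤ (2 * nm b - 1) + (2 * nm c - 1) := by
      refine (natDegree_add_le _ _).trans (max_le ?_ ?_)
      · refine (natDegree_mul_le).trans ?_
        omega
      · refine (natDegree_C_mul_le _ _).trans ((natDegree_mul_le).trans ?_)
        omega
    omega
  · refine (natDegree_mul_le).trans ?_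
    have t1 : (A1 * B2 - A2 * B1).natDegree ≤ (2 * nm b - 1) + (2 * nm c - 1) := by
      refine (natDegree_sub_le _ _).trans (max_le ?_ ?_)
      · refine (natDegree_mul_le).trans ?_
        omega
      · refine (natDegree_mul_le).trans ?_
        omega
    have t2 := (natDegree_pow_le (p := A1 * B2 - A2 * B1) (n := 2))
    have t3 := natDegree_X_le (R := F)
    omega
  · rw [hBev, hAev]
    linear_combination (B1.eval₂ (ι : F →+* L) X * B2.eval₂ (ι : F →+* L) X) ^ 2 * hp

lemma DD_all (h2 : (2 : F) ≠ 0) (hd : d ≠ 0) (hG : Gen F d L ι X Y h) (hPrf : PrfStmt)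
    (hLmf : LmfStmt) (hNco : NcoStmt) (n : ℕ) :
    ∀ a : GaussianInt, nm a = n → a ≠ 0 → DD ι X Y h a := by
  induction n using Nat.strong_induction_on with
  | _ n ih =>
  -- the case of an odd real part and an even imaginary part
  have key : ∀ a : GaussianInt, nm a = n → a ≠ 0 → a.re % 2 = 1 → a.im % 2 = 0 →
      DD ι X Y h a := by
    intro a han ha hre him
    by_cases h1 : a = 1
    · rw [h1]; exact DD_one
    by_cases h1' : a = -1
    · rw [h1']; exact DD_neg 1 DD_one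
    let b : GaussianInt := ⟨(a.re + 1) / 2, a.im / 2⟩
    let c : GaussianInt := ⟨(a.re - 1) / 2, a.im / 2⟩
    have eb1 : 2 * b.re = a.re + 1 := by show 2 * ((a.re + 1) / 2) = _; omega
    have eb2 : 2 * b.im = a.im := by show 2 * (a.im / 2) = _; omega
    have ec1 : 2 * c.re = a.re - 1 := by show 2 * ((a.re - 1) / 2) = _; omega
    have ec2 : 2 * c.im = a.im := by show 2 * (a.im / 2) = _; omega
    have hb : b ≠ 0 := by
      intro e
      apply h1'
      rw [e] at eb1 eb2
      simp only [Zsqrtd.re_zero, Zsqrtd.im_zero] at eb1 eb2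
      apply Zsqrtd.ext
      · show a.re = -1; omega
      · show a.im = 0; omega
    have hc : c ≠ 0 := by
      intro e
      apply h1
      rw [e] at ec1 ec2
      simp only [Zsqrtd.re_zero, Zsqrtd.im_zero] at ec1 ec2
      apply Zsqrtd.ext
      · show a.re = 1; omega
      · show a.im = 0; omega
    have hbc : b + c = a := by
      apply Zsqrtd.ext
      · rw [Zsqrtd.re_add]; omega
      · rw [Zsqrtd.im_add]; omega
    have hbc' : b - c = 1 := by
      apply Zsqrtd.ext
      · rw [Zsqrtd.re_sub, Zsqrtd.re_one]; omega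
      · rw [Zsqrtd.im_sub, Zsqrtd.im_one]; omega
    have hn : 2 * (nm b + nm c) = nm a + 1 := by
      have q1 := nm_cast a
      have q2 := nm_cast b
      have q3 := nm_cast c
      have : (2 * (nm b + nm c) : ℤ) = nm a + 1 := by
        have r1 : a.re = 2 * b.re - 1 := by linarith
        have r2 : c.re = b.re - 1 := by linarith
        have r3 : a.im = 2 * b.im := by linarith
        have r4 : c.im = b.im := by linarith
        rw [q1, q2, q3, r1, r2, r3, r4]
        ring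
      exact_mod_cast this
    have hnb := nm_pos b hb
    have hnc := nm_pos c hc
    exact DD_odd h2 hd hG hPrf hNco a b c ha hb hc hbc hbc' hn
      (ih (nm b) (by omega) b rfl hb) (ih (nm c) (by omega) c rfl hc)
  have even : ∀ a : GaussianInt, nm a = n → a ≠ 0 → (a.re + a.im) % 2 = 0 → DD ι X Y h a := by
    intro a han ha hev
    let b : GaussianInt := ⟨(a.re + a.im) / 2, (a.im - a.re) / 2⟩
    have eb1 : 2 * b.re = a.re + a.im := by show 2 * ((a.re + a.im) / 2) = _; omega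
    have eb2 : 2 * b.im = a.im - a.re := by show 2 * ((a.im - a.re) / 2) = _; omega
    have hab : lam * b = a := by
      apply Zsqrtd.ext
      · rw [Zsqrtd.re_mul]
        show 1 * b.re + -1 * 1 * b.im = a.re
        omega
      · rw [Zsqrtd.im_mul]
        show 1 * b.im + 1 * b.re = a.im
        omega
    have hb : b ≠ 0 := by
      intro e
      apply ha
      rw [← hab, e, mul_zero]
    have hn : nm a = 2 * nm b := by
      have q1 := nm_cast a
      have q2 := nm_cast b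
      have : (nm a : ℤ) = 2 * nm b := by
        have r1 : a.re = b.re - b.im := by linarith
        have r2 : a.im = b.re + b.im := by linarith
        rw [q1, q2, r1, r2]
        ring
      exact_mod_cast this
    have hnb := nm_pos b hb
    rw [← hab]
    exact DD_lam h2 hd hG hLmf hNco b hb (ih (nm b) (by omega) b rfl hb)
  intro a han ha
  rcases Int.emod_two_eq_zero_or_one a.re with hre | hre <;>
    rcases Int.emod_two_eq_zero_or_one a.im with him | him
  · exact even a han ha (by omega)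
  · have e : a = ⟨0, 1⟩ * ⟨a.im, -a.re⟩ := by
      apply Zsqrtd.ext
      · rw [Zsqrtd.re_mul]
        show a.re = 0 * a.im + -1 * 1 * -a.re
        ring
      · rw [Zsqrtd.im_mul]
        show a.im = 0 * -a.re + 1 * a.im
        ring
    have hn : nm (⟨a.im, -a.re⟩ : GaussianInt) = n := by
      have q1 := nm_cast a
      have q2 := nm_cast (⟨a.im, -a.re⟩ : GaussianInt)
      have : (nm (⟨a.im, -a.re⟩ : GaussianInt) : ℤ) = nm a := by
        rw [q1, q2]
        ring
      rw [← han]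
      exact_mod_cast this
    have h0 : (⟨a.im, -a.re⟩ : GaussianInt) ≠ 0 := by
      intro e0
      apply ha
      rw [e, e0, mul_zero]
    rw [e]
    exact DD_I _ (key _ hn h0 him (by show (-a.re) % 2 = 0; omega))
  · exact key a han ha hre him
  · exact even a han ha (by omega)

end main

theorem deg (hPrf : PrfStmt) (hLmf : LmfStmt) (hNco : NcoStmt) : DegStmt := by
  intro F _ _ _ d h2 hd L _ _ ι X Y h hG a ha
  exact DD_all h2 hd hG hPrf hLmf hNco (nm a) a rfl ha

end Pool.Agent.WAP.H16
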